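import Mathlib

/-!
# Dual bases of number fields and their complex embeddings
-/

namespace Pool.Agent.N721.HX

open Module

noncomputable section

/-- A number field has a basis `b` and a dual basis `b'` with `∑ φ(b' i) ψ(b i) = δ` for the complex
embeddings `φ`, `ψ`. -/
theorem exists_dual (E : Type) [Field E] [NumberField E] :
    ∃ (n : ℕ) (b b' : Fin n → E), ∀ φ ψ : E →+* ℂ,
      (φ = ψ → ∑ i, φ (b' i) * ψ (b i) = 1) ∧ (φ ≠ ψ → ∑ i, φ (b' i) * ψ (b i) = 0) := by
  classical
  let b : Basis (Fin (finrank ℚ E)) ℚ E := Module.finBasis ℚ E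
  let B := Algebra.traceForm ℚ E
  have hB : B.Nondegenerate := traceForm_nondegenerate ℚ E
  let b' : Basis (Fin (finrank ℚ E)) ℚ E := B.dualBasis hB b
  have key : ∀ x : E, x = ∑ i, (Algebra.trace ℚ E (x * b i)) • b' i := by
    intro x
    conv_lhs => rw [← b'.sum_repr x]
    refine Finset.sum_congr rfl fun i _ => ?_
    rw [LinearMap.BilinForm.dualBasis_repr_apply]
    rfl
  have hli := linearIndependent_toLinearMap ℚ E ℂ
  rw [Fintype.linearIndependent_iff] at hli
  have main : ∀ φ ψ : E →ₐ[ℚ] ℂ, ∑ i, φ (b' i) * ψ (b i) = if φ = ψ then 1 else 0 := by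
    intro φ ψ
    have h1 := hli (fun ψ => (∑ i, φ (b' i) * ψ (b i)) - if φ = ψ then 1 else 0) (by
      refine LinearMap.ext fun x => ?_
      rw [LinearMap.sum_apply, LinearMap.zero_apply]
      have h2 : φ x = ∑ i, (∑ ψ : E →ₐ[ℚ] ℂ, ψ x * ψ (b i)) * φ (b' i) := by
        conv_lhs => rw [key x]
        rw [map_sum]
        refine Finset.sum_congr rfl fun i _ => ?_
        rw [Algebra.smul_def, map_mul, AlgHom.commutes, trace_eq_sum_embeddings (E := ℂ)]
        congr 1
        exact Finset.sum_congr rfl fun ψ _ => map_mul ψ _ _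
      have h3 : ∑ ψ : E →ₐ[ℚ] ℂ, (∑ i, φ (b' i) * ψ (b i)) * ψ x = φ x := by
        rw [h2]
        simp only [Finset.sum_mul]
        rw [Finset.sum_comm]
        refine Finset.sum_congr rfl fun i _ => Finset.sum_congr rfl fun ψ _ => ?_
        ring
      simp only [LinearMap.smul_apply, AlgHom.toLinearMap_apply, smul_eq_mul, sub_mul,
        Finset.sum_sub_distrib, h3, ite_mul, one_mul, zero_mul, Finset.sum_ite_eq,
        Finset.mem_univ, if_true, sub_self]) ψ
    exact sub_eq_zero.1 h1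
  refine ⟨_, b, b', fun φ ψ => ⟨fun h => ?_, fun h => ?_⟩⟩
  · subst h
    have h1 := main (RingHom.equivRatAlgHom E ℂ φ) (RingHom.equivRatAlgHom E ℂ φ)
    rw [if_pos rfl] at h1
    exact h1
  · have h1 := main (RingHom.equivRatAlgHom E ℂ φ) (RingHom.equivRatAlgHom E ℂ ψ)
    rw [if_neg fun h2 => h ((RingHom.equivRatAlgHom E ℂ).injective h2)] at h1
    exact h1

end

end Pool.Agent.N721.HX
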