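import Mathlib
import Pool.Agent.N178.HX.StmE
import Pool.Agent.N721.HX.Dual

/-!
# GHC3: the line attached to an abelian variety of CM type (for helper178)
-/

set_option linter.unusedSectionVars false

namespace Pool.Agent.N721.HX

open Finset Matrix Module NumberField Pool.Agent.W437.HC Pool.Agent.W437.HD Pool.Agent.Y90
open Pool.Agent.R915 Pool.Agent.N178.HW Pool.Agent.N178.HX
open Pool.Agent.W548.Odd hiding cv
open Pool.Agent.W547.KB (CMPair CMAV single)
open Pool.Agent.N830.HC (av)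

noncomputable section

variable {g : ℕ} {Z : Matrix (Fin g) (Fin g) ℂ}

theorem eig_neg_of_perC (h : PM Z) {v : Fin g ⊕ Fin g → ℂ} (hv : perC Z v = 0) :
    v ∈ eig Z (-1) := by
  obtain ⟨a, ha, b, hb, rfl⟩ := mem_LZ_decomp h v
  rw [map_add, perC_neg h hb, add_zero] at hv
  rw [perC_pos h ha hv, zero_add]
  exact hb

theorem cjS_span {B : Type*} [Fintype B] [DecidableEq B] (σ : ℂ ≃+* ℂ) (v : B → ℂ) :
    cjS σ (Submodule.span ℂ {v}) = Submodule.span ℂ {fun i => σ (v i)} := by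
  ext w
  rw [mem_cjS, Submodule.mem_span_singleton, Submodule.mem_span_singleton]
  constructor
  · rintro ⟨c, hc⟩
    refine ⟨σ c, funext fun i => ?_⟩
    have h1 := congrFun hc i
    rw [Pi.smul_apply, smul_eq_mul] at h1 ⊢
    rw [← map_mul, h1, RingEquiv.apply_symm_apply]
  · rintro ⟨c, hc⟩
    refine ⟨σ.symm c, funext fun i => ?_⟩
    have h1 := congrFun hc i
    rw [Pi.smul_apply, smul_eq_mul] at h1 ⊢
    rw [← h1, map_mul, RingEquiv.symm_apply_apply]

theorem finrank_line {v : Fin g ⊕ Fin g → ℂ} (hv : v ≠ 0) :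
    finrank ℂ (Submodule.span ℂ {v}) = 1 := finrank_span_singleton hv

theorem tr_pos {v : Fin g ⊕ Fin g → ℂ} (hv : v ≠ 0) (hD : v ∈ eig Z 1) :
    tr Z (Submodule.span ℂ {v}) = 1 := by
  have h1 : Submodule.span ℂ {v} ≤ eig Z 1 := (Submodule.span_singleton_le_iff_mem _ _).2 hD
  have h2 : pd Z (Submodule.span ℂ {v}) = 1 := by
    unfold pd
    rw [inf_eq_left.2 h1, finrank_line hv]
  have h3 : qd Z (Submodule.span ℂ {v}) = 0 := by
    unfold qd
    have h4 : Submodule.span ℂ {v} ⊓ eig Z (-1) = ⊥ := by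
      rw [eq_bot_iff, ← eig_inf (Z := Z) 1 (-1) (by norm_num)]
      exact inf_le_inf_right _ h1
    rw [h4, finrank_bot]
  unfold tr
  rw [h2, h3]
  norm_num

theorem tr_neg {v : Fin g ⊕ Fin g → ℂ} (hv : v ≠ 0) (hD : v ∈ eig Z (-1)) :
    tr Z (Submodule.span ℂ {v}) = -1 := by
  have h1 : Submodule.span ℂ {v} ≤ eig Z (-1) := (Submodule.span_singleton_le_iff_mem _ _).2 hD
  have h2 : qd Z (Submodule.span ℂ {v}) = 1 := by
    unfold qd
    rw [inf_eq_left.2 h1, finrank_line hv]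
  have h3 : pd Z (Submodule.span ℂ {v}) = 0 := by
    unfold pd
    have h4 : Submodule.span ℂ {v} ⊓ eig Z 1 = ⊥ := by
      rw [eq_bot_iff, ← eig_inf (Z := Z) (-1) 1 (by norm_num)]
      exact inf_le_inf_right _ h1
    rw [h4, finrank_bot]
  unfold tr
  rw [h2, h3]
  norm_num

/-- The vector attached to an embedding. -/
def vec {n : ℕ} {E : Type} [Field E] (b b' : Fin n → E) (F : E → (Fin g ⊕ Fin g → ℚ))
    (φ : E →+* ℂ) : Fin g ⊕ Fin g → ℂ := ∑ i, φ (b' i) • cv (F (b i))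

theorem vec_conj {n : ℕ} {E : Type} [Field E] (b b' : Fin n → E)
    (F : E → (Fin g ⊕ Fin g → ℚ)) (φ : E →+* ℂ) (σ : ℂ ≃+* ℂ) :
    (fun k => σ (vec b b' F φ k)) = vec b b' F ((σ : ℂ →+* ℂ).comp φ) := by
  funext k
  unfold vec
  rw [Finset.sum_apply, Finset.sum_apply, map_sum]
  refine Finset.sum_congr rfl fun i _ => ?_
  rw [Pi.smul_apply, Pi.smul_apply, smul_eq_mul, smul_eq_mul, map_mul]
  congr 1
  exact map_ratCast σ _

/-- Stability of the line of a vector whose conjugates are eigenvectors. -/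
theorem stab_span {v : Fin g ⊕ Fin g → ℂ} (hv : ∀ σ : ℂ ≃+* ℂ, ∃ c : ℂ, DS Z σ *ᵥ v = c • v) :
    Stab (Pool.Agent.Y90.LZ Z) (Submodule.span ℂ {v}) := by
  let L : Submodule ℂ (Matrix (Fin g ⊕ Fin g) (Fin g ⊕ Fin g) ℂ) :=
    { carrier := {X | ∃ c : ℂ, X *ᵥ v = c • v}
      add_mem' := by
        rintro X X' ⟨c, hc⟩ ⟨c', hc'⟩
        exact ⟨c + c', by rw [add_mulVec, hc, hc', add_smul]⟩
      zero_mem' := ⟨0, by rw [zero_mulVec, zero_smul]⟩
      smul_mem' := by
        rintro a X ⟨c, hc⟩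
        exact ⟨a * c, by rw [smul_mulVec, hc, smul_smul]⟩ }
  have hL : Pool.Agent.Y90.LZ Z ≤ L := by
    refine LZ_le (fun σ => hv σ) ?_
    rintro A ⟨a, ha⟩ C ⟨c, hc⟩
    refine ⟨0, ?_⟩
    rw [sub_mulVec, ← mulVec_mulVec, ← mulVec_mulVec, hc, ha, mulVec_smul, mulVec_smul, ha, hc,
      smul_smul, smul_smul, mul_comm, sub_self, zero_smul]
  intro X hX u hu
  obtain ⟨c, rfl⟩ := Submodule.mem_span_singleton.1 hu
  obtain ⟨a, ha⟩ := hL hX
  rw [mulVec_smul, ha]
  exact Submodule.smul_mem _ _ (Submodule.smul_mem _ _ (Submodule.mem_span_singleton_self v))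

/-- The image of a stable line is an irreducible submodule. -/
theorem line_irr {L : Submodule ℂ (Matrix (Fin g ⊕ Fin g) (Fin g ⊕ Fin g) ℂ)}
    {U : Submodule ℂ (Fin g ⊕ Fin g → ℂ)} (hst : Stab L U) (h1 : finrank ℂ U = 1) : IrS L U := by
  refine ⟨fun h0 => ?_, hst, fun W hW _ => ?_⟩
  · rw [h0, finrank_bot] at h1
    exact absurd h1 (by norm_num)
  · rcases Nat.eq_zero_or_pos (finrank ℂ W) with h2 | h2
    · left
      exact Submodule.finrank_eq_zero.1 h2
    · right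
      refine Submodule.eq_of_le_of_finrank_le hW ?_
      rw [h1]
      exact h2

/-- The vectors are not zero. -/
theorem vec_ne {n : ℕ} {E : Type} [Field E] [NumberField E] {b b' : Fin n → E}
    {φ : E →+* ℂ} (hφ : ∑ i, φ (b' i) * φ (b i) = 1)
    (F : E →ₗ[ℚ] (Fin g ⊕ Fin g → ℚ)) (F₂ : (Fin g ⊕ Fin g → ℚ) →ₗ[ℚ] E)
    (hF : ∀ x, F₂ (F x) = x) : vec b b' F φ ≠ 0 := by
  intro h0
  let l : (Fin g ⊕ Fin g → ℂ) →ₗ[ℂ] ℂ :=
    { toFun := fun v => ∑ k, v k * φ (F₂ (Pi.single k 1))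
      map_add' := fun v w => by
        rw [← Finset.sum_add_distrib]
        exact Finset.sum_congr rfl fun k _ => by rw [Pi.add_apply, add_mul]
      map_smul' := fun c v => by
        rw [RingHom.id_apply, smul_eq_mul, Finset.mul_sum]
        exact Finset.sum_congr rfl fun k _ => by rw [Pi.smul_apply, smul_eq_mul, mul_assoc] }
  have hl : ∀ w : Fin g ⊕ Fin g → ℚ, l (cv w) = φ (F₂ w) := by
    intro w
    change ∑ k, cv w k * φ (F₂ (Pi.single k 1)) = _
    have h1 : w = ∑ k, w k • (Pi.single k 1 : Fin g ⊕ Fin g → ℚ) := by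
      funext j
      rw [Finset.sum_apply, Finset.sum_eq_single j]
      · rw [Pi.smul_apply, Pi.single_eq_same, smul_eq_mul, mul_one]
      · intro k _ hk
        rw [Pi.smul_apply, Pi.single_eq_of_ne (Ne.symm hk), smul_zero]
      · intro hj
        exact absurd (Finset.mem_univ j) hj
    conv_rhs => rw [h1]
    rw [map_sum, map_sum]
    refine Finset.sum_congr rfl fun k _ => ?_
    rw [map_smul, Algebra.smul_def, map_mul]
    congr 1
    change ((w k : ℚ) : ℂ) = φ (algebraMap ℚ E (w k))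
    rw [eq_ratCast, map_ratCast]
  have h1 := congrArg l h0
  rw [map_zero] at h1
  unfold vec at h1
  rw [map_sum] at h1
  have h2 : ∑ i, l (φ (b' i) • cv (F (b i))) = ∑ i, φ (b' i) * φ (b i) :=
    Finset.sum_congr rfl fun i _ => by rw [map_smul, hl, hF, smul_eq_mul]
  rw [h2, hφ] at h1
  exact one_ne_zero h1

theorem t_LINEA : Pool.Agent.N178.HX.S_LINEA := by
  intro g Z h P j f hf hinj
  obtain ⟨Ψ, hΨ⟩ := hf
  obtain ⟨n, b, b', hb⟩ := exists_dual P.E
  let f' : (∀ _ : Unit, P.E) →ₗ[ℚ] (Fin g ⊕ Fin g → ℚ) := f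
  obtain ⟨f₂, hf₂⟩ := LinearMap.exists_leftInverse_of_injective f' (LinearMap.ker_eq_bot.2 hinj)
  let F : P.E →ₗ[ℚ] (Fin g ⊕ Fin g → ℚ) :=
    f'.comp (LinearMap.pi fun _ : Unit => (LinearMap.id : P.E →ₗ[ℚ] P.E))
  let F₂ : (Fin g ⊕ Fin g → ℚ) →ₗ[ℚ] P.E := (LinearMap.proj ()).comp f₂
  have hFF : ∀ x, F₂ (F x) = x := by
    intro x
    change f₂ (f' fun _ => x) () = x
    have h1 := congrArg (fun m => m (fun _ : Unit => x)) hf₂
    have h2 : f₂ (f' fun _ => x) = fun _ => x := h1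
    rw [h2]
  have hne : ∀ φ : P.E →+* ℂ, vec b b' F φ ≠ 0 := fun φ => vec_ne ((hb φ φ).1 rfl) F F₂ hFF
  have hneg : ∀ φ : P.E →+* ℂ, φ ∉ P.Φ → vec b b' F φ ∈ eig Z (-1) := by
    intro φ hφ
    refine eig_neg_of_perC h ?_
    have h1 : perC Z (vec b b' F φ) = Ψ (∑ i, φ (b' i) • (av (single P)).per (fun _ => b i)) := by
      unfold vec
      rw [map_sum, map_sum]
      refine Finset.sum_congr rfl fun i _ => ?_
      rw [map_smul, perC_rat, map_smul]
      exact congrArg (fun t => φ (b' i) • t) (hΨ _).symm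
    rw [h1]
    have h2 : (∑ i, φ (b' i) • (av (single P)).per (fun _ => b i)) = 0 := by
      funext u ψ
      have h3 := (hb φ ψ.1).2 fun h4 => hφ (h4 ▸ ψ.2)
      have h5 : (∑ i, φ (b' i) • (single P).per (fun _ => b i)) u ψ =
          ∑ i, φ (b' i) * ψ.1 (b i) := by
        rw [Finset.sum_apply, Finset.sum_apply]
        rfl
      exact h5.trans h3
    rw [h2, map_zero]
  have hpos : ∀ φ : P.E →+* ℂ, φ ∈ P.Φ → vec b b' F φ ∈ eig Z 1 := by
    intro φ hφ
    have h1 := hneg _ ((P.isCMType φ).1 hφ)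
    have h2 : vec b b' F φ = fun k => cc (vec b b' F (ComplexEmbedding.conjugate φ) k) := by
      rw [vec_conj]
      congr 1
      ext x
      change φ x = starRingEnd ℂ (starRingEnd ℂ (φ x))
      rw [Complex.conj_conj]
    have h3 : DZ Z *ᵥ vec b b' F (ComplexEmbedding.conjugate φ) =
      (-1 : ℂ) • vec b b' F (ComplexEmbedding.conjugate φ) := h1
    have h4 := map_mulVec_aut cc (DZ Z) (vec b b' F (ComplexEmbedding.conjugate φ))
    rw [Pool.Agent.Y90.DZ_conj, ← h2, h3] at h4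
    change DZ Z *ᵥ vec b b' F φ = (1 : ℂ) • vec b b' F φ
    rw [one_smul]
    have h5 : (fun k => cc (((-1 : ℂ) • vec b b' F (ComplexEmbedding.conjugate φ)) k)) =
        -vec b b' F φ := by
      rw [h2]
      funext k
      change cc ((-1 : ℂ) * _) = - cc _
      rw [map_mul, map_neg, map_one, neg_one_mul]
    rw [h5, neg_mulVec] at h4
    exact (neg_injective h4).symm
  have hcomp : ∀ (σ : ℂ ≃+* ℂ), ∃ c : ℂ, DS Z σ *ᵥ vec b b' F j = c • vec b b' F j := by
    intro σ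
    set φ : P.E →+* ℂ := ((σ.symm : ℂ ≃+* ℂ) : ℂ →+* ℂ).comp j with hφ
    have h1 : vec b b' F j = fun k => σ (vec b b' F φ k) := by
      rw [vec_conj]
      congr 1
      ext x
      change j x = σ (σ.symm (j x))
      rw [RingEquiv.apply_symm_apply]
    obtain ⟨c, hc⟩ : ∃ c : ℂ, DZ Z *ᵥ vec b b' F φ = c • vec b b' F φ := by
      by_cases hm : φ ∈ P.Φ
      · exact ⟨1, hpos φ hm⟩
      · exact ⟨-1, hneg φ hm⟩
    refine ⟨σ c, ?_⟩
    have h4 := map_mulVec_aut σ (DZ Z) (vec b b' F φ)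
    rw [← h1, hc] at h4
    change (DZ Z).map σ *ᵥ _ = _
    rw [← h4, h1]
    funext k
    change σ (c * _) = σ c * σ _
    rw [map_mul]
  have hst := stab_span hcomp
  have h1 := finrank_line (hne j)
  refine ⟨_, line_irr hst h1, h1, fun σ => ?_⟩
  rw [cjS_span, vec_conj]
  exact ⟨fun h2 => tr_pos (hne _) (hpos _ h2), fun h2 => tr_neg (hne _) (hneg _ h2)⟩

end

end Pool.Agent.N721.HX
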